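import Pool.Agent.Helper79.HJ.Defs
import Pool.Agent.Helper79.HH.Exist
import Pool.Agent.Helper88.MT.MTComp

/-!
# HJ: the Hodge circle

(helper79)
-/

set_option linter.unusedSectionVars false

namespace Pool.Agent.Helper79.HJ

open Matrix Pool.Agent.Helper79.HH Pool.Agent.Helper88.MT

section

variable {ι : Type} [Fintype ι] [DecidableEq ι] {lev : ι → ℤ} {j : ℤ} {ψ : Matrix ι ι ℚ}
  {P : Matrix ι ι ℂ}

/-- Operators which are scalars on the parts of the Hodge decomposition. -/
noncomputable def sc (Q : Matrix ι ι ℂ) (deg : ι → ℤ) (s : ℤ → ℂ) : Matrix ι ι ℂ :=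
  Q * diagonal (fun i => s (deg i)) * Q⁻¹

theorem sc_mulVec (hpol : IsPolarized lev j ψ P) {Q : Matrix ι ι ℂ} {deg : ι → ℤ}
    (hQu : IsUnit Q.det) (hQ : ∀ i, (fun x => Q x i) ∈ hodgePart lev j P (deg i)) (s : ℤ → ℂ) {p : ℤ}
    {v : ι → ℂ} (hv : v ∈ hodgePart lev j P p) : sc Q deg s *ᵥ v = s p • v := by
  have h1 : diagonal (fun i => s (deg i)) *ᵥ (Q⁻¹ *ᵥ v) = s p • (Q⁻¹ *ᵥ v) := by
    funext i
    rw [Matrix.mulVec_diagonal, Pi.smul_apply, smul_eq_mul]
    by_cases hi : deg i = p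
    · rw [hi]
    · rw [coord_eq_zero hpol hQu hQ hv i hi, mul_zero, mul_zero]
  unfold sc
  rw [← Matrix.mulVec_mulVec, ← Matrix.mulVec_mulVec, h1, Matrix.mulVec_smul, Matrix.mulVec_mulVec,
    Matrix.mul_nonsing_inv _ hQu, Matrix.one_mulVec]

theorem sc_mul {Q : Matrix ι ι ℂ} (hQu : IsUnit Q.det) (deg : ι → ℤ) (s s' : ℤ → ℂ) :
    sc Q deg s * sc Q deg s' = sc Q deg fun p => s p * s' p := by
  unfold sc
  calc Q * diagonal (fun i => s (deg i)) * Q⁻¹ * (Q * diagonal (fun i => s' (deg i)) * Q⁻¹)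
      = Q * diagonal (fun i => s (deg i)) * (Q⁻¹ * Q) * diagonal (fun i => s' (deg i)) * Q⁻¹ := by
        simp only [Matrix.mul_assoc]
    _ = _ := by
        rw [Matrix.nonsing_inv_mul _ hQu, Matrix.mul_one, Matrix.mul_assoc Q, diagonal_mul_diagonal]

theorem sc_one {Q : Matrix ι ι ℂ} (hQu : IsUnit Q.det) (deg : ι → ℤ) :
    sc Q deg (fun _ => 1) = 1 := by
  unfold sc
  rw [diagonal_one, Matrix.mul_one, Matrix.mul_nonsing_inv _ hQu]

/-- The operators are isometries. -/
theorem sc_isom (hpol : IsPolarized lev j ψ P) {Q : Matrix ι ι ℂ} {deg : ι → ℤ}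
    (hQu : IsUnit Q.det) (hQ : ∀ i, (fun x => Q x i) ∈ hodgePart lev j P (deg i)) {s : ℤ → ℂ}
    (hs : ∀ p, s p * s (j - p) = 1) :
    (sc Q deg s)ᵀ * qc ψ * sc Q deg s = qc ψ := by
  set G : Matrix ι ι ℂ := Qᵀ * qc ψ * Q with hG
  have h1 : ∀ i k, deg i + deg k ≠ j → G i k = 0 := by
    intro i k hik
    have h2 := hpol.orth (deg i) (j - deg k) (by omega) _ (hQ i) _ (star_mem (hQ k))
    rw [form, star_star] at h2
    rw [← h2, hG, Matrix.mul_assoc, Matrix.mul_apply, dotProduct]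
    refine Finset.sum_congr rfl fun x _ => ?_
    rw [Matrix.transpose_apply]
    congr 1
  have h2 : diagonal (fun i => s (deg i)) * G * diagonal (fun i => s (deg i)) = G := by
    ext i k
    rw [Matrix.mul_diagonal, Matrix.diagonal_mul]
    by_cases hik : deg i + deg k = j
    · have h3 : deg k = j - deg i := by omega
      have h4 := hs (deg i)
      rw [h3]
      linear_combination G i k * h4
    · rw [h1 i k hik, mul_zero, zero_mul]
  have h3 : qc ψ = (Q⁻¹)ᵀ * G * Q⁻¹ := by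
    rw [hG]
    calc qc ψ = (Q * Q⁻¹)ᵀ * qc ψ * (Q * Q⁻¹) := by
          rw [Matrix.mul_nonsing_inv _ hQu, Matrix.transpose_one, Matrix.one_mul, Matrix.mul_one]
      _ = _ := by
          rw [Matrix.transpose_mul]
          simp only [Matrix.mul_assoc]
  have h4 : (sc Q deg s)ᵀ * qc ψ * sc Q deg s =
      (Q⁻¹)ᵀ * (diagonal (fun i => s (deg i)) * G * diagonal (fun i => s (deg i))) * Q⁻¹ := by
    unfold sc
    rw [Matrix.transpose_mul, Matrix.transpose_mul, Matrix.diagonal_transpose, hG]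
    simp only [Matrix.mul_assoc]
  rw [h4, h2, ← h3]

open scoped ComplexOrder in
theorem det_qc_ne (hpol : IsPolarized lev j ψ P) : (qc ψ).det ≠ 0 := by
  obtain ⟨Q, deg, hQu, hQ⟩ := exists_basis hpol.span
  have h1 := (frame_pos hpol hQu hQ).det_pos.ne'
  intro h0
  apply h1
  rw [Matrix.det_transpose, Matrix.det_mul, Matrix.det_mul, Matrix.det_mul, h0]
  ring

/-- The determinant. -/
theorem det_sc (hpol : IsPolarized lev j ψ P) {Q : Matrix ι ι ℂ} {deg : ι → ℤ}
    (hQu : IsUnit Q.det) (hQ : ∀ i, (fun x => Q x i) ∈ hodgePart lev j P (deg i)) {u : ℂ}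
    (hu : u ≠ 0) : (sc Q deg fun p => u ^ (2 * p - j)).det = 1 := by
  obtain ⟨v, hv⟩ := IsAlgClosed.exists_pow_nat_eq u (n := 2) (by norm_num)
  have hv0 : v ≠ 0 := by
    rintro rfl
    apply hu
    rw [← hv]
    norm_num
  have h1 : (sc Q deg fun p => u ^ (2 * p - j)) =
      (sc Q deg fun p => v ^ (2 * p - j)) * (sc Q deg fun p => v ^ (2 * p - j)) := by
    rw [sc_mul hQu]
    congr 1
    funext p
    rw [← hv, ← mul_zpow, ← pow_two]
  have h2 := sc_isom hpol hQu hQ (s := fun p => v ^ (2 * p - j)) (by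
    intro p
    rw [← zpow_add₀ hv0]
    have : 2 * p - j + (2 * (j - p) - j) = 0 := by ring
    rw [this, zpow_zero])
  have h3 := congrArg Matrix.det h2
  rw [Matrix.det_mul, Matrix.det_mul, Matrix.det_transpose] at h3
  rw [h1, Matrix.det_mul]
  have h4 := det_qc_ne hpol
  apply mul_right_cancel₀ h4
  linear_combination h3

end

section Curve

variable {ι : Type*} [Fintype ι] [DecidableEq ι]

/-- The derivative of a polynomial along a curve of matrices. -/
theorem hasDerivAt_evM (g : Matrix ι ι ℂ) {c : ℝ → Matrix ι ι ℂ} {X : Matrix ι ι ℂ} (h0 : c 0 = 1)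
    (hc : ∀ i k, HasDerivAt (fun θ => c θ i k) (X i k) 0) (f : MvPolynomial (ι × ι) ℂ) :
    HasDerivAt (fun θ => evM (g * c θ) f) (evM g (der X f)) 0 := by
  induction f using MvPolynomial.induction_on with
  | C a =>
    have h1 : der X (MvPolynomial.C a : MvPolynomial (ι × ι) ℂ) = 0 := Derivation.map_algebraMap _ _
    rw [h1, map_zero]
    have h2 : (fun θ => evM (g * c θ) (MvPolynomial.C a)) = fun _ => a := by
      funext θ
      rw [evM_C]
      rfl
    rw [h2]
    exact hasDerivAt_const _ _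
  | add p q hp hq =>
    rw [map_add, map_add]
    have h2 : (fun θ => evM (g * c θ) (p + q)) =
        fun θ => evM (g * c θ) p + evM (g * c θ) q := by
      funext θ
      rw [map_add]
    rw [h2]
    exact hp.add hq
  | mul_X f p hf =>
    have h2 : (fun θ => evM (g * c θ) (f * MvPolynomial.X p)) =
        fun θ => evM (g * c θ) f * ∑ k, g p.1 k * c θ k p.2 := by
      funext θ
      rw [map_mul, evM_X, Matrix.mul_apply]
    rw [h2]
    have h3 : HasDerivAt (fun θ => ∑ k, g p.1 k * c θ k p.2) (∑ k, g p.1 k * X k p.2) 0 :=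
      HasDerivAt.fun_sum fun k _ => (hc k p.2).const_mul _
    have h4 := hf.mul h3
    have h5 : evM g (der X (f * MvPolynomial.X p)) =
        evM g (der X f) * (∑ k, g p.1 k * c 0 k p.2) +
          evM (g * c 0) f * ∑ k, g p.1 k * X k p.2 := by
      rw [Derivation.leibniz, smul_eq_mul, smul_eq_mul, map_add, map_mul, map_mul, evM_der_X, h0,
        Matrix.mul_one, evM_X, ← Matrix.mul_apply, ← Matrix.mul_apply, Matrix.mul_one]
      have h6 : X.map (algebraMap ℂ ℂ) = X := by
        ext i k; simp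
      rw [h6]
      ring
    rw [h5]
    exact h4

end Curve

end Pool.Agent.Helper79.HJ
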