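import Pool.Agent.Helper79.HI.MTContain
import Pool.Agent.Helper79.HI.PointB
import Pool.Agent.Helper79.HJ.Circle

/-!
# HJ: the Hodge group contains the connected groups whose Lie algebra it contains

(helper79)
-/

set_option linter.unusedSectionVars false

namespace Pool.Agent.Helper79.HJ

open Matrix Module Pool.Agent.Helper88.MT Pool.Agent.Helper46.GG Pool.Agent.Helper79.HG Pool.Agent.Helper79.HH
  Pool.Agent.Helper79.HI

theorem lie_of_der {ι : Type*} [Fintype ι] [DecidableEq ι] {k K : Type*} [Field k] [CharZero k]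
    [Field K] [Algebra k K] [IsAlgClosed K] {D : Matrix ι ι K} {𝔪 : Set (Matrix ι ι k)}
    (hlie : ∀ 𝔤 : Submodule k (Matrix ι ι k), (∀ x ∈ 𝔤, ∀ y ∈ 𝔤, x * y - y * x ∈ 𝔤) →
      D ∈ mspan K 𝔤 → ∀ x ∈ 𝔪, x ∈ 𝔤)
    {S : Set (Matrix ι ι K)} {Q : Set (MvPolynomial (ι × ι) k)}
    (hS : ∀ M, M ∈ S ↔ ∀ q ∈ Q, evM M q = 0)
    (hD : ∀ f : MvPolynomial (ι × ι) k, (∀ M ∈ S, evM (R := K) M f = 0) → ∀ M ∈ S,
      evM (F := K) M (der D (MvPolynomial.map (algebraMap k K) f)) = 0)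
    {x : Matrix ι ι k} (hx : x ∈ 𝔪) {f : MvPolynomial (ι × ι) k}
    (hf : ∀ M ∈ S, evM (R := K) M f = 0) : ∀ M ∈ S, evM (R := K) M (der x f) = 0 := by
  have hKchar : CharZero K := charZero_of_injective_algebraMap (algebraMap k K).injective
  -- the ideal
  let 𝓘 : Submodule k (MvPolynomial (ι × ι) k) :=
    { carrier := {f | ∀ M ∈ S, evM (R := K) M f = 0}
      add_mem' := by
        intro f g hf hg M hM
        rw [map_add, hf M hM, hg M hM, add_zero]
      zero_mem' := by intro M _; rw [map_zero]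
      smul_mem' := by intro c f hf M hM; rw [map_smul, hf M hM, smul_zero] }
  have h𝓘 : ∀ f, f ∈ 𝓘 ↔ ∀ M ∈ S, evM (R := K) M f = 0 := fun f ↦ Iff.rfl
  -- the Lie algebra
  let Lk : Submodule k (Matrix ι ι k) :=
    { carrier := {x | ∀ f ∈ 𝓘, der x f ∈ 𝓘}
      add_mem' := by
        intro x y hx hy f hf
        rw [der_add, Derivation.add_apply]
        exact 𝓘.add_mem (hx f hf) (hy f hf)
      zero_mem' := by
        intro f _
        rw [der_zero, Derivation.zero_apply]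
        exact 𝓘.zero_mem
      smul_mem' := by
        intro c x hx f hf
        rw [der_smul, Derivation.smul_apply]
        exact 𝓘.smul_mem c (hx f hf) }
  have hLk : ∀ x, x ∈ Lk ↔ ∀ f ∈ 𝓘, der x f ∈ 𝓘 := fun x ↦ Iff.rfl
  have hLlie : ∀ x ∈ Lk, ∀ y ∈ Lk, x * y - y * x ∈ Lk := by
    intro x hx y hy f hf
    rw [der_comm]
    exact 𝓘.sub_mem (hx _ (hy f hf)) (hy _ (hx f hf))
  -- `D` lies in the span of the Lie algebra
  let LK : Submodule K (Matrix ι ι K) :=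
    { carrier := {x | ∀ f ∈ 𝓘, ∀ M ∈ S,
        evM (F := K) M (der x (MvPolynomial.map (algebraMap k K) f)) = 0}
      add_mem' := by
        intro x y hx hy f hf M hM
        rw [der_add, Derivation.add_apply, map_add, hx f hf M hM, hy f hf M hM, add_zero]
      zero_mem' := by
        intro f _ M _
        rw [der_zero, Derivation.zero_apply, map_zero]
      smul_mem' := by
        intro c x hx f hf M hM
        rw [der_smul, Derivation.smul_apply, map_smul, hx f hf M hM, smul_zero] }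
  have hLK : ∀ x, x ∈ LK ↔ ∀ f ∈ 𝓘, ∀ M ∈ S,
      evM (F := K) M (der x (MvPolynomial.map (algebraMap k K) f)) = 0 := fun x ↦ Iff.rfl
  have hSσ : ∀ σ : K ≃ₐ[k] K, ∀ M ∈ S, M.map σ ∈ S := by
    intro σ M hM
    rw [hS] at hM ⊢
    intro q hq
    rw [evM_algEquiv, hM q hq, map_zero]
  have hLKσ : ∀ σ : K ≃ₐ[k] K, ∀ x ∈ LK, x.map σ ∈ LK := by
    intro σ x hx f hf M hM
    have h1 := hx f hf (M.map σ.symm) (hSσ σ.symm M hM)
    have h2 := evM_mapHom (σ : K →+* K) (M.map σ.symm)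
      (der x (MvPolynomial.map (algebraMap k K) f))
    rw [h1, map_zero, ← der_mapHom] at h2
    have h3 : (M.map σ.symm).map (σ : K →+* K) = M := by
      ext i j; simp
    have h4 : MvPolynomial.map (σ : K →+* K) (MvPolynomial.map (algebraMap k K) f) =
        MvPolynomial.map (algebraMap k K) f := by
      rw [MvPolynomial.map_map]
      have h5 : (σ : K →+* K).comp (algebraMap k K) = algebraMap k K := by
        ext c
        simp
      rw [h5]
    rw [h3, h4] at h2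
    exact h2
  have hLKk : LK ≤ mspan K Lk := by
    refine le_mspan_of_stable hLKσ ?_
    intro x hx f hf M hM
    have h1 := hx f hf M hM
    rw [der_map, evM_mapAlg] at h1
    exact h1
  have hDLK : D ∈ LK := by
    intro f hf M hM
    exact hD f ((h𝓘 f).mp hf) M hM
  have hDL : D ∈ mspan K Lk := hLKk hDLK
  -- the Lie algebra contains `𝔪`
  exact (hLk x).mp (hlie Lk hLlie hDL x hx) f hf

section Curve

variable {r : ℕ}

/-- The Hodge circle. -/
noncomputable def circ (Q : Matrix (Fin r) (Fin r) ℂ) (deg : Fin r → ℤ) (j : ℤ) (θ : ℝ) :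
    Matrix (Fin r) (Fin r) ℂ :=
  sc Q deg fun p => Complex.exp (θ * Complex.I) ^ (2 * p - j)

theorem circ_zero {Q : Matrix (Fin r) (Fin r) ℂ} (hQu : IsUnit Q.det) (deg : Fin r → ℤ) (j : ℤ) :
    circ Q deg j 0 = 1 := by
  unfold circ
  rw [← sc_one hQu deg]
  congr 1
  funext p
  rw [Complex.ofReal_zero, zero_mul, Complex.exp_zero, _root_.one_zpow]

theorem sc_apply (Q : Matrix (Fin r) (Fin r) ℂ) (deg : Fin r → ℤ) (s : ℤ → ℂ) (i k : Fin r) :
    sc Q deg s i k = ∑ l, Q i l * s (deg l) * Q⁻¹ l k := by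
  unfold sc
  rw [Matrix.mul_apply]
  refine Finset.sum_congr rfl fun l _ => ?_
  rw [Matrix.mul_diagonal]

theorem hasDerivAt_zpow_exp (n : ℤ) :
    HasDerivAt (fun θ : ℝ => Complex.exp (θ * Complex.I) ^ n) ((n : ℂ) * Complex.I) 0 := by
  have h1 : HasDerivAt (fun θ : ℝ => (n : ℂ) * ((θ : ℂ) * Complex.I)) ((n : ℂ) * (1 * Complex.I)) 0 := by
    have h2 : HasDerivAt (fun θ : ℝ => (θ : ℂ)) 1 (0 : ℝ) := by
      have := (hasDerivAt_id (0 : ℝ)).ofReal_comp
      simpa using this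
    exact (h2.mul_const Complex.I).const_mul (n : ℂ)
  have h3 := h1.cexp
  have h4 : (fun θ : ℝ => Complex.exp (θ * Complex.I) ^ n) =
      fun θ : ℝ => Complex.exp ((n : ℂ) * ((θ : ℂ) * Complex.I)) := by
    funext θ
    rw [Complex.exp_int_mul]
  rw [h4]
  have h5 : Complex.exp ((n : ℂ) * (((0 : ℝ) : ℂ) * Complex.I)) * ((n : ℂ) * (1 * Complex.I)) =
      (n : ℂ) * Complex.I := by
    rw [Complex.ofReal_zero, zero_mul, mul_zero, Complex.exp_zero, one_mul, one_mul]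
  rw [← h5]
  exact h3

theorem hasDerivAt_circ (Q : Matrix (Fin r) (Fin r) ℂ) (deg : Fin r → ℤ) (j : ℤ) (i k : Fin r) :
    HasDerivAt (fun θ : ℝ => circ Q deg j θ i k)
      ((Complex.I • sc Q deg fun p => ((2 * p - j : ℤ) : ℂ)) i k) 0 := by
  have h1 : (fun θ : ℝ => circ Q deg j θ i k) =
      fun θ : ℝ => ∑ l, Q i l * Complex.exp (θ * Complex.I) ^ (2 * deg l - j) * Q⁻¹ l k := by
    funext θ
    unfold circ
    rw [sc_apply]
  have h2 : (Complex.I • sc Q deg fun p => ((2 * p - j : ℤ) : ℂ)) i k =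
      ∑ l, Q i l * (((2 * deg l - j : ℤ) : ℂ) * Complex.I) * Q⁻¹ l k := by
    rw [Matrix.smul_apply, sc_apply, smul_eq_mul, Finset.mul_sum]
    refine Finset.sum_congr rfl fun l _ => ?_
    ring
  rw [h1, h2]
  exact HasDerivAt.fun_sum fun l _ => ((hasDerivAt_zpow_exp _).const_mul _).mul_const _

end Curve

section Hodge

variable {r : ℕ} {lev : Fin r → ℤ} {j : ℤ} {ψ : Matrix (Fin r) (Fin r) ℚ}
  {P : Matrix (Fin r) (Fin r) ℂ}

theorem eq_of_span (hpol : IsPolarized lev j ψ P) {A B : Matrix (Fin r) (Fin r) ℂ}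
    (h : ∀ p, ∀ v ∈ hodgePart lev j P p, A *ᵥ v = B *ᵥ v) : A = B := by
  have h1 : ∀ v : Fin r → ℂ, A *ᵥ v = B *ᵥ v := by
    intro v
    have hv : v ∈ ⨆ p, hodgePart lev j P p := by
      rw [hpol.span]
      exact Submodule.mem_top
    refine Submodule.iSup_induction _ (motive := fun v => A *ᵥ v = B *ᵥ v) hv ?_ ?_ ?_
    · intro p v hv
      exact h p v hv
    · rw [mulVec_zero, mulVec_zero]
    · intro x y hx hy
      rw [mulVec_add, mulVec_add, hx, hy]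
  apply Matrix.toLin'.injective
  apply LinearMap.ext
  intro v
  rw [Matrix.toLin'_apply, Matrix.toLin'_apply]
  exact h1 v

theorem exp_mul_I_ne (θ : ℝ) : Complex.exp (θ * Complex.I) ≠ 0 := Complex.exp_ne_zero _

theorem isCircleElt_circ (hpol : IsPolarized lev j ψ P) {Q : Matrix (Fin r) (Fin r) ℂ} {deg : Fin r → ℤ}
    (hQu : IsUnit Q.det) (hQ : ∀ i, (fun x => Q x i) ∈ hodgePart lev j P (deg i)) {u : ℂ} (hu : ‖u‖ = 1) :
    IsCircleElt lev j P u (ofDet (sc Q deg fun p => u ^ (2 * p - j)) (det_sc hpol hQu hQ (by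
      rintro rfl
      rw [norm_zero] at hu
      exact zero_ne_one hu))) := by
  refine ⟨hu, fun p v hv => ?_⟩
  rw [ofDet_coe]
  exact sc_mulVec hpol hQu hQ _ hv

theorem exists_circleElt (hpol : IsPolarized lev j ψ P) {u : ℂ} (hu : ‖u‖ = 1) :
    ∃ a, IsCircleElt lev j P u a := by
  obtain ⟨Q, deg, hQu, hQ⟩ := exists_basis hpol.span
  exact ⟨_, isCircleElt_circ hpol hQu hQ hu⟩

private theorem HodgeGroup_le_aux {S : Subgroup (GL (Fin r) ℂ)}
    (hS : ∃ Q : Set (GLPoly r ℚ), ∀ a : GL (Fin r) ℂ, a ∈ S ↔ ∀ f ∈ Q, evGL a f = 0)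
    (h : ∀ u a, IsCircleElt lev j P u a → a ∈ S) : HodgeGroup lev j P ≤ S := by
  unfold HodgeGroup
  exact sInf_le ⟨hS, h⟩

theorem HodgeGroup_closed (a : GL (Fin r) ℂ) :
    a ∈ HodgeGroup lev j P ↔
      ∀ f ∈ vanGL ℚ (HodgeGroup lev j P : Set (GL (Fin r) ℂ)), evGL a f = 0 := by
  constructor
  · intro ha f hf
    exact hf a ha
  · intro h
    rw [HodgeGroup, Subgroup.mem_sInf]
    rintro S ⟨⟨Q, hQ⟩, hS⟩
    rw [hQ]
    intro f hf
    apply h
    intro b hb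
    exact (hQ b).1 (HodgeGroup_le_aux ⟨Q, hQ⟩ hS hb) f hf

theorem isCircleElt_mem {u : ℂ} {a : GL (Fin r) ℂ} (h : IsCircleElt lev j P u a) :
    a ∈ HodgeGroup lev j P := by
  rw [HodgeGroup, Subgroup.mem_sInf]
  rintro S ⟨-, hS⟩
  exact hS u a h

theorem HodgeGroup_le {S : Subgroup (GL (Fin r) ℂ)}
    (hS : ∀ a : GL (Fin r) ℂ, a ∈ S ↔ ∀ f ∈ vanGL ℚ (S : Set (GL (Fin r) ℂ)), evGL a f = 0)
    (h : ∀ u a, IsCircleElt lev j P u a → a ∈ S) : HodgeGroup lev j P ≤ S :=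
  HodgeGroup_le_aux ⟨_, hS⟩ h

/-- The Hodge group contains every group with connected closure whose Lie algebra is contained in all rational
Lie algebras over which the Hodge operator is defined. -/
theorem le_HodgeGroup (hpol : IsPolarized lev j ψ P) {Γ : Subgroup (GL (Fin r) ℚ)}
    (hconn : IsConn (Γ : Set (GL (Fin r) ℚ)))
    (hdet1 : ∀ γ ∈ Γ, (γ : Matrix (Fin r) (Fin r) ℚ).det = 1)
    (hlie : ∀ 𝔤 : Submodule ℚ (Matrix (Fin r) (Fin r) ℚ), (∀ x ∈ 𝔤, ∀ y ∈ 𝔤, x * y - y * x ∈ 𝔤) →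
      (∀ D, IsHodgeOp lev j P D → D ∈ mspan ℂ 𝔤) → ∀ x ∈ lieS Γ, x ∈ 𝔤) :
    ∀ γ ∈ Γ, Matrix.GeneralLinearGroup.map (algebraMap ℚ ℂ) γ ∈ HodgeGroup lev j P := by
  intro γ hγ
  obtain ⟨Q₀, deg, hQu, hQ⟩ := exists_basis hpol.span
  rw [HodgeGroup, Subgroup.mem_sInf]
  rintro S ⟨⟨P, hP⟩, hS⟩
  let S' : Set (Matrix (Fin r) (Fin r) ℂ) :=
    {M | M.det = 1 ∧ ∀ f ∈ P, MvPolynomial.aeval (pt1 M) f = 0}
  have hSS : ∀ b : GL (Fin r) ℂ, (b : Matrix (Fin r) (Fin r) ℂ) ∈ S' → b ∈ S := by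
    rintro b ⟨hb1, hb2⟩
    rw [hP]
    intro f hf
    rw [evGL_of_det hb1]
    exact hb2 f hf
  have hSS' : ∀ b : GL (Fin r) ℂ, b ∈ S → (b : Matrix (Fin r) (Fin r) ℂ).det = 1 →
      (b : Matrix (Fin r) (Fin r) ℂ) ∈ S' := by
    intro b hb hb'
    refine ⟨hb', fun f hf ↦ ?_⟩
    rw [← evGL_of_det hb']
    exact (hP b).mp hb f hf
  have hS1 : (1 : Matrix (Fin r) (Fin r) ℂ) ∈ S' := by
    have h1 : ((1 : GL (Fin r) ℂ) : Matrix (Fin r) (Fin r) ℂ) ∈ S' :=
      hSS' 1 S.one_mem (by simp)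
    exact h1
  have hSQ : ∀ M, M ∈ S' ↔ ∀ q ∈ ({eqDet (Fin r) ℚ} ∪ (toLin '' P) :
      Set (MvPolynomial (Fin r × Fin r) ℚ)), evM M q = 0 := by
    intro M
    constructor
    · rintro ⟨hM1, hM2⟩ q (rfl | ⟨f, hf, rfl⟩)
      · rw [evM_eqDet, hM1, sub_self]
      · rw [evM_toLin]
        exact hM2 f hf
    · intro h
      refine ⟨?_, fun f hf ↦ ?_⟩
      · have h1 := h _ (Or.inl rfl)
        rw [evM_eqDet] at h1
        exact sub_eq_zero.mp h1
      · rw [← evM_toLin]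
        exact h _ (Or.inr ⟨f, hf, rfl⟩)
  have hmul : ∀ M ∈ S', ∀ M' ∈ S', M * M' ∈ S' := by
    intro M hM M' hM'
    have h1 := hSS (ofDet M hM.1) hM
    have h2 := hSS (ofDet M' hM'.1) hM'
    refine hSS' (ofDet M hM.1 * ofDet M' hM'.1) (S.mul_mem h1 h2) ?_
    change (M * M').det = 1
    rw [Matrix.det_mul, hM.1, hM'.1, one_mul]
  have hhod : ∀ θ : ℝ, circ Q₀ deg j θ ∈ S' := by
    intro θ
    have hu : ‖Complex.exp (θ * Complex.I)‖ = 1 := Complex.norm_exp_ofReal_mul_I θ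
    have h1 := hS _ _ (isCircleElt_circ hpol hQu hQ hu)
    exact hSS' _ h1 (det_sc hpol hQu hQ (exp_mul_I_ne θ))
  -- the ideal
  let J : Ideal (MvPolynomial (Fin r × Fin r) ℚ) :=
    { carrier := {f | ∀ M ∈ S', evM (R := ℂ) M f = 0}
      add_mem' := by
        intro f g hf hg M hM
        rw [map_add, hf M hM, hg M hM, add_zero]
      zero_mem' := by intro M _; rw [map_zero]
      smul_mem' := by
        intro c f hf M hM
        rw [smul_eq_mul, map_mul, hf M hM, mul_zero] }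
  have hJ : ∀ x ∈ lieS Γ, ∀ f ∈ J, der x f ∈ J := by
    intro x hx f hf
    refine lie_of_der (k := ℚ) (K := ℂ) (D := Complex.I • sc Q₀ deg fun p => ((2 * p - j : ℤ) : ℂ))
      (𝔪 := (lieS Γ : Set (Matrix (Fin r) (Fin r) ℚ))) ?_ hSQ ?_ hx hf
    · intro 𝔤 h𝔤 hD
      refine hlie 𝔤 h𝔤 fun D' hD' => ?_
      have h1 : D' = sc Q₀ deg fun p => ((2 * p - j : ℤ) : ℂ) := by
        refine eq_of_span hpol fun p v hv => ?_
        rw [hD' p v hv, sc_mulVec hpol hQu hQ _ hv]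
      have h2 := Submodule.smul_mem _ (-Complex.I) hD
      rw [smul_smul, neg_mul, Complex.I_mul_I, neg_neg, one_smul, ← h1] at h2
      exact h2
    · intro f hf M hM
      have h1 := hasDerivAt_evM M (circ_zero hQu deg j) (hasDerivAt_circ Q₀ deg j)
        (MvPolynomial.map (algebraMap ℚ ℂ) f)
      have h2 : (fun θ : ℝ => evM (M * circ Q₀ deg j θ) (MvPolynomial.map (algebraMap ℚ ℂ) f)) =
          fun _ => (0 : ℂ) := by
        funext θ
        rw [evM_mapAlg]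
        exact hf _ (hmul M hM _ (hhod θ))
      rw [h2] at h1
      exact h1.unique (hasDerivAt_const _ _)
  have hJ1 : ∀ f ∈ J, evM (1 : Matrix (Fin r) (Fin r) ℚ) f = 0 := by
    intro f hf
    have h1 : evM (R := ℂ) (1 : Matrix (Fin r) (Fin r) ℂ) f = 0 := hf 1 hS1
    have h2 : evM (F := ℚ) (1 : Matrix (Fin r) (Fin r) ℂ) f =
        algebraMap ℚ ℂ (evM (1 : Matrix (Fin r) (Fin r) ℚ) f) := by
      rw [← evM_map, Matrix.map_one _ (map_zero _) (map_one _), evM_mapAlg]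
    rw [h2] at h1
    exact (map_eq_zero _).mp h1
  -- values at rational points
  have hval : ∀ (g : GL (Fin r) ℚ) (f : GLPoly r ℚ),
      evGL (Matrix.GeneralLinearGroup.map (algebraMap ℚ ℂ) g) f = algebraMap ℚ ℂ (evGL g f) :=
    fun g f ↦ evGL_map (R := ℚ) (Algebra.ofId ℚ ℂ) g f
  have hmemS : ∀ g : GL (Fin r) ℚ, Matrix.GeneralLinearGroup.map (algebraMap ℚ ℂ) g ∈ S ↔
      ∀ f ∈ P, evGL g f = 0 := by
    intro g
    rw [hP]
    refine forall₂_congr fun f _ ↦ ?_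
    rw [hval]
    exact map_eq_zero _
  let Γ' : Subgroup (GL (Fin r) ℚ) := S.comap (Matrix.GeneralLinearGroup.map (algebraMap ℚ ℂ))
  have hfin : Γ'.relIndex Γ ≠ 0 := by
    refine relIndex_ne_zero hJ1 hJ fun g hg hgJ ↦ ?_
    rw [Subgroup.mem_comap, hmemS]
    intro f hf
    have h1 : toLin f ∈ J := fun M hM ↦ (hSQ M).mp hM _ (Or.inr ⟨f, hf, rfl⟩)
    have h2 := hgJ _ h1
    rw [evM_toLin, ← evGL_of_det (hdet1 g hg)] at h2
    exact h2
  rw [hmemS]
  intro f hf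
  exact van_of_finite hconn hfin (fun g hg _ ↦ (hmemS g).mp hg f hf) γ hγ

end Hodge

end Pool.Agent.Helper79.HJ
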