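import Pool.Agent.Helper79.HJ.Contain

/-!
# HJ: most algebraic points are Hodge generic

(helper79)
-/

set_option linter.unusedSectionVars false

namespace Pool.Agent.Helper79.HJ

open Matrix Module Pool.Agent.Helper79.BB Pool.Agent.Helper79.HH Pool.Agent.Helper79.HG
  Pool.Agent.Helper79.HI Pool.Agent.Helper64.Per Pool.Agent.Helper88.MT Pool.Agent.Helper46.GG
  Pool.Agent.Helper79.DD

section Point

variable {r m : ℕ} {lev : Fin r → ℤ} {j : ℤ} {ψ : Matrix (Fin r) (Fin r) ℚ}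
  {U V W : Set (Fin m → ℂ)} {w : (Fin m → ℂ) → ℂ} {P : (Fin m → ℂ) → Matrix (Fin r) (Fin r) ℂ}
  {Γ : Subgroup (GL (Fin r) ℤ)}

theorem qp_map (γ : GL (Fin r) ℤ) :
    ((Matrix.GeneralLinearGroup.map (Int.castRingHom ℚ) γ : GL (Fin r) ℚ) :
      Matrix (Fin r) (Fin r) ℚ).map (Rat.cast : ℚ → ℂ) =
      (γ : Matrix (Fin r) (Fin r) ℤ).map (Int.cast : ℤ → ℂ) := by
  ext i j
  change (((γ : Matrix (Fin r) (Fin r) ℤ) i j : ℤ) : ℚ) = ((γ : Matrix (Fin r) (Fin r) ℤ) i j : ℂ)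
  simp

theorem isom_qp (hΓ : IsConnMonoH U V W w P lev j ψ Γ) : ∀ γ ∈ qp Γ,
    (γ : Matrix (Fin r) (Fin r) ℚ)ᵀ * ψ * γ = ψ := by
  rintro _ ⟨γ, hγ, rfl⟩
  have h1 := (hΓ.mono γ hγ).2.1
  rw [← qp_map] at h1
  have hinj : ∀ M N : Matrix (Fin r) (Fin r) ℚ, M.map (Rat.cast : ℚ → ℂ) =
      N.map (Rat.cast : ℚ → ℂ) → M = N := by
    intro M N h
    ext i j
    have h2 := congrFun (congrFun h i) j
    rw [Matrix.map_apply, Matrix.map_apply] at h2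
    exact_mod_cast h2
  apply hinj
  have h3 : ∀ M N : Matrix (Fin r) (Fin r) ℚ, (M * N).map (Rat.cast : ℚ → ℂ) =
      M.map (Rat.cast : ℚ → ℂ) * N.map (Rat.cast : ℚ → ℂ) := fun M N =>
    Matrix.map_mul (f := Rat.castHom ℂ)
  rw [h3, h3, Matrix.transpose_map]
  exact h1

theorem det_psi_ne {P : Matrix (Fin r) (Fin r) ℂ} (hpol : IsPolarized lev j ψ P) : ψ.det ≠ 0 := by
  intro h0
  apply det_qc_ne hpol
  have h1 : (qc ψ).det = ((ψ.det : ℚ) : ℂ) := (RingHom.map_det (Rat.castHom ℂ) ψ).symm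
  rw [h1, h0, Rat.cast_zero]

theorem det_qp (hψ : ψ.det ≠ 0) (hΓ : IsConnMonoH U V W w P lev j ψ Γ) :
    ∀ γ ∈ qp Γ, (γ : Matrix (Fin r) (Fin r) ℚ).det = 1 := by
  refine det_eq_one_of_isConn hΓ.conn (qp Γ).one_mem fun g hg => ?_
  exact det_isom hψ (isom_qp hΓ g hg)

theorem perf_qp (hψ : ψ.det ≠ 0) (hΓ : IsConnMonoH U V W w P lev j ψ Γ)
    (L : Submodule ℚ (Matrix (Fin r) (Fin r) ℚ))
    (hL : ∀ x ∈ lieS (qp Γ), ∀ y ∈ lieS (qp Γ), x * y - y * x ∈ L) : lieS (qp Γ) ≤ L := by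
  have h1 : ∀ x, x ∈ lieGL (qp Γ : Set (GL (Fin r) ℚ)) ↔ x ∈ lieS (qp Γ) := fun x =>
    mem_lieGL_iff (det_qp hψ hΓ)
  intro x hx
  refine hΓ.perfect L ?_ ((h1 x).2 hx)
  intro x hx y hy
  exact hL x ((h1 x).1 hx) y ((h1 y).1 hy)

theorem tangent_qp (hΓ : IsConnMonoH U V W w P lev j ψ Γ) : ∀ x ∈ lieS (qp Γ),
    x.map (Rat.cast : ℚ → ℂ) ∈ HH.tangent (Mono ψ U w P) := by
  intro x hx q hq
  refine map_mem_tangent hx q ?_
  rintro _ ⟨_, ⟨γ, hγ, rfl⟩, rfl⟩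
  have h2 := hq _ (hΓ.mono γ hγ)
  rw [← qp_map] at h2
  exact h2

/-- The Hodge group contains `Γ`. -/
theorem map_mem_HodgeGroup {P₁ : Matrix (Fin r) (Fin r) ℂ} (hpol : IsPolarized lev j ψ P₁)
    (hconn : IsConn (qp Γ : Set (GL (Fin r) ℚ)))
    (hdet1 : ∀ γ ∈ qp Γ, (γ : Matrix (Fin r) (Fin r) ℚ).det = 1)
    (hperf : ∀ L : Submodule ℚ (Matrix (Fin r) (Fin r) ℚ),
      (∀ x ∈ lieS (qp Γ), ∀ y ∈ lieS (qp Γ), x * y - y * x ∈ L) → lieS (qp Γ) ≤ L)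
    {h : Set (Matrix (Fin r) (Fin r) ℂ)} (hMT : MTContains lev j P₁ h)
    (hh : ∀ x ∈ lieS (qp Γ), x.map (Rat.cast : ℚ → ℂ) ∈ h) :
    ∀ γ ∈ qp Γ, Matrix.GeneralLinearGroup.map (algebraMap ℚ ℂ) γ ∈ HodgeGroup lev j P₁ := by
  refine le_HodgeGroup hpol hconn hdet1 ?_
  intro 𝔤 hLie hD𝔤
  refine hperf 𝔤 ?_
  intro x hx y hy
  have h1 := hMT 𝔤 hLie hD𝔤 _ (hh x hx) _ (hh y hy)
  refine mem_of_map_mem_mspan (K := ℂ) ?_
  have h2 : (x * y - y * x).map (algebraMap ℚ ℂ) = x.map (Rat.cast : ℚ → ℂ) * y.map (Rat.cast : ℚ → ℂ) -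
      y.map (Rat.cast : ℚ → ℂ) * x.map (Rat.cast : ℚ → ℂ) := by
    have h3 : (Rat.cast : ℚ → ℂ) = algebraMap ℚ ℂ := by
      funext q
      simp
    rw [h3, ← Matrix.map_mul, ← Matrix.map_mul]
    ext i j
    simp only [Matrix.map_apply, Matrix.sub_apply, map_sub]
  rw [h2]
  exact h1

/-- The proof at a point. -/
theorem generic_of (hΓ : IsConnMonoH U V W w P lev j ψ Γ) {t : Fin m → ℂ} (htV : t ∈ V)
    (hpol : IsPolarized lev j ψ (P t))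
    (hMT : MTContains lev j (P t) (HH.tangent (Mono ψ U w P))) :
    ∀ t₁ ∈ W, HodgeGroup lev j (P t₁) ≤ HodgeGroup lev j (P t) := by
  intro t₁ ht₁
  have hψ := det_psi_ne hpol
  have hΓT := map_mem_HodgeGroup hpol hΓ.conn (det_qp hψ hΓ) (perf_qp hψ hΓ) hMT (tangent_qp hΓ)
  refine HodgeGroup_le HodgeGroup_closed ?_
  intro u a₁ ha₁
  obtain ⟨a, ha⟩ := exists_circleElt hpol ha₁.1
  have h1 := zar_le_closed HodgeGroup_closed hΓT (hΓ.hodge t htV t₁ ht₁ u a a₁ ha ha₁)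
  have h2 := (HodgeGroup lev j (P t)).mul_mem h1 (isCircleElt_mem ha)
  rwa [inv_mul_cancel_right] at h2

end Point

theorem hodge_count {κ : IntermediateField ℚ Qbar} [FiniteDimensional ℚ κ] {m : ℕ} (hm : 1 ≤ m)
    {F : FamiliesM κ m} {μ r₀ r : ℕ} (E : F.Sub μ r₀ (Fin r)) {U : Set (Fin m → ℂ)} (hU : IsOpen U)
    (hU' : IsPreconnected U) {w : (Fin m → ℂ) → ℂ} (hw : IsBranchM κ U μ w)
    {P : (Fin m → ℂ) → Matrix (Fin r) (Fin r) ℂ} (hP : E.IsPeriod U w P) {V : Set (Fin m → ℂ)}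
    (hV : DeepW F.T U V ∨ IsCompact V ∧ V ⊆ U) (hdet : ∀ t ∈ V, IsUnit (P t).det)
    {lev : Fin r → ℤ} {j : ℤ} {ψ : Matrix (Fin r) (Fin r) ℚ}
    (hpol : ∀ t ∈ V, IsPolarized lev j ψ (P t))
    {J : Type} [Fintype J] (ω : Module.Basis J ℚ κ)
    {D : ℕ} (hD : 1 ≤ D) (e : ℕ) (N : Finset (ℕ × J)) (hN : ∃ j, (0, j) ∈ N) :
    ∃ C θ₀ : ℝ, 0 < θ₀ ∧ ∀ X : ℕ, 1 ≤ X →
      ((SmallMT ω N U V w P lev j ψ D e X).ncard : ℝ) ≤
        C * (X : ℝ) ^ ((((D + 1 + m * (e + 1)) * Module.finrank ℚ κ + N.card : ℕ) : ℝ) - θ₀) ∧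
      ∀ (W : Set (Fin m → ℂ)) (Γ : Subgroup (GL (Fin r) ℤ)), IsConnMonoH U V W w P lev j ψ Γ →
        ((SmallHodge ω N V W P lev j D e X).ncard : ℝ) ≤
          C * (X : ℝ) ^ ((((D + 1 + m * (e + 1)) * Module.finrank ℚ κ + N.card : ℕ) : ℝ) - θ₀) := by
  classical
  obtain ⟨C, θ₀, hθ₀, h⟩ : ∃ C θ₀ : ℝ, 0 < θ₀ ∧ ∀ X : ℕ, 1 ≤ X →
      ((SmallMT ω N U V w P lev j ψ D e X).ncard : ℝ) ≤
      C * (X : ℝ) ^ ((((D + 1 + m * (e + 1)) * Module.finrank ℚ κ + N.card : ℕ) : ℝ) - θ₀) := by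
    rcases Nat.eq_zero_or_pos r with hr | hr
    · subst hr
      refine ⟨0, 1, one_pos, fun X _ => ?_⟩
      have : SmallMT ω N U V w P lev j ψ D e X = ∅ := by
        rw [Set.eq_empty_iff_forall_notMem]
        rintro a ⟨_, θ, _, _, _, h3⟩
        apply h3
        intro g _ _ x _ y _
        have h4 : x * y - y * x = 0 := Subsingleton.elim _ _
        rw [h4]
        exact Submodule.zero_mem _
      rw [this, Set.ncard_empty, Nat.cast_zero, zero_mul]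
    · have : Nonempty (Fin r) := ⟨⟨0, hr⟩⟩
      exact small_count hm E hU hU' hw hP hV hdet hpol ω hD e N hN
  refine ⟨C, θ₀, hθ₀, fun X hX => ⟨h X hX, fun W Γ hΓ => le_trans ?_ (h X hX)⟩⟩
  have hfin : (SmallMT ω N U V w P lev j ψ D e X).Finite := (AA.box_card X _ fun a ha => ha.1).1
  have hsub : SmallHodge ω N V W P lev j D e X ⊆ SmallMT ω N U V w P lev j ψ D e X := by
    rintro b ⟨hb, θ, hθ, hq, hθV, hne⟩
    refine ⟨hb, θ, hθ, hq, hθV, fun hMT => hne ?_⟩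
    exact generic_of hΓ hθV (hpol _ hθV) hMT
  exact_mod_cast Set.ncard_le_ncard hsub hfin

end Pool.Agent.Helper79.HJ
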