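import Pool.Agent.Helper79.HI.Defs
import Pool.Agent.Helper79.HH.StatM

/-!
# HJ: Hodge generic algebraic points: definitions
-/

namespace Pool.Agent.Helper79.HJ

open Matrix Pool.Agent.Helper79.BB Pool.Agent.Helper79.HH Pool.Agent.Helper79.HG Pool.Agent.Helper79.HI
  Pool.Agent.Helper64.Per Pool.Agent.Helper88.MT Pool.Agent.Helper79.DD

variable {r : ℕ}

/-- The element of `GL r` over `ℂ` by which the complex number `u` of absolute value one acts on the Hodge
structure of weight `j`, up to sign, given by the period matrix `P`: it acts on `hodgePart lev j P p` as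
`u ^ (2 p - j)`. -/
def IsCircleElt (lev : Fin r → ℤ) (j : ℤ) (P : Matrix (Fin r) (Fin r) ℂ) (u : ℂ) (a : GL (Fin r) ℂ) : Prop :=
  ‖u‖ = 1 ∧ ∀ p, ∀ v ∈ hodgePart lev j P p,
    (a : Matrix (Fin r) (Fin r) ℂ) *ᵥ v = u ^ (2 * p - j) • v

/-- The group of complex points of the special Mumford-Tate group (the Hodge group): the smallest subgroup of `GL r`
over `ℂ` which is the set of common zeros of polynomials with rational coefficients and contains the elements by
which the complex numbers of absolute value one act. -/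
noncomputable def HodgeGroup (lev : Fin r → ℤ) (j : ℤ) (P : Matrix (Fin r) (Fin r) ℂ) :
    Subgroup (GL (Fin r) ℂ) :=
  sInf {S : Subgroup (GL (Fin r) ℂ) |
    (∃ Q : Set (GLPoly r ℚ), ∀ a : GL (Fin r) ℂ, a ∈ S ↔ ∀ f ∈ Q, evGL a f = 0) ∧
      ∀ u a, IsCircleElt lev j P u a → a ∈ S}

/-- `Γ` is a group of monodromy matrices of the period matrix `P` (isometries of `ψ`) whose Zariski closure is connected
and has a perfect Lie algebra, and modulo which the Hodge structures at the points of `V` and `W` are the same.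

For the cohomology of the fibres of a smooth projective family, all this holds if `Γ` is the group of the monodromy
matrices in the identity component of the Zariski closure of the monodromy group: `perfect` since this component is
semisimple (Deligne), and `hodge` is the theorem of the fixed part. -/
structure IsConnMonoH {m : ℕ} (U V W : Set (Fin m → ℂ)) (w : (Fin m → ℂ) → ℂ)
    (P : (Fin m → ℂ) → Matrix (Fin r) (Fin r) ℂ) (lev : Fin r → ℤ) (j : ℤ)
    (ψ : Matrix (Fin r) (Fin r) ℚ) (Γ : Subgroup (GL (Fin r) ℤ)) : Prop where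
  mono : ∀ γ ∈ Γ, (γ : Matrix (Fin r) (Fin r) ℤ).map (Int.cast : ℤ → ℂ) ∈ Mono ψ U w P
  conn : IsConn (qp Γ : Set (GL (Fin r) ℚ))
  perfect : ∀ L : Submodule ℚ (Matrix (Fin r) (Fin r) ℚ),
    (∀ x ∈ lieGL (qp Γ : Set (GL (Fin r) ℚ)), ∀ y ∈ lieGL (qp Γ : Set (GL (Fin r) ℚ)),
      x * y - y * x ∈ L) → lieGL (qp Γ : Set (GL (Fin r) ℚ)) ⊆ L
  hodge : ∀ t ∈ V, ∀ t₁ ∈ W, ∀ (u : ℂ) (a a₁ : GL (Fin r) ℂ), IsCircleElt lev j (P t) u a →
    IsCircleElt lev j (P t₁) u a₁ → a₁ * a⁻¹ ∈ zar ℂ (qp Γ : Set (GL (Fin r) ℚ))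

/-- The integer parameters `a` with coordinates of absolute value at most `X` such that for an algebraic root `θ` of
`F_a` with `G_0(θ) ≠ 0` the point `t = (G_1(θ) / G_0(θ), …, G_m(θ) / G_0(θ))` is in `V`, and the Hodge group at `t` does
not contain the Hodge groups at all points of `W`. -/
def SmallHodge {κ : IntermediateField ℚ Qbar} {J : Type} [Fintype J] (ω : Module.Basis J ℚ κ)
    (N : Finset (ℕ × J)) {m : ℕ} (V W : Set (Fin m → ℂ)) (P : (Fin m → ℂ) → Matrix (Fin r) (Fin r) ℂ)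
    (lev : Fin r → ℤ) (j : ℤ) (D e X : ℕ) : Set (DD.Px m D e J N → ℤ) :=
  {a | (∀ p, |a p| ≤ X) ∧ ∃ θ : ℂ, polyU ω N a θ = 0 ∧ denU ω N a θ ≠ 0 ∧
    pointU ω N a θ ∈ V ∧ ¬ ∀ t₁ ∈ W, HodgeGroup lev j (P t₁) ≤ HodgeGroup lev j (P (pointU ω N a θ))}

end Pool.Agent.Helper79.HJ
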